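import Pool.Agent.H76.Cyc

set_option autoImplicit false

namespace Pool.Agent.H76

open Polynomial

lemma cyc_one_two : cyc 1 2 = 1 := by
  unfold cyc
  simp [cyclotomic_one]

lemma even_card_divisors {n : ℕ} (hn : 2 ≤ n) (hsq : Squarefree n) : Even n.divisors.card := by
  obtain ⟨p, hp, hpn⟩ := Nat.exists_prime_and_dvd (show n ≠ 1 by omega)
  obtain ⟨m, rfl⟩ := hpn
  have hcop : Nat.Coprime p m := Nat.coprime_of_squarefree_mul hsq
  rw [hcop.card_divisors_mul, hp.divisors, Finset.card_pair hp.one_lt.ne]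
  exact even_two_mul _

/-- for squarefree `n ≥ 2`, `Φ_n(2) ≡ 3 (mod 4)` -/
lemma cyc_two_mod_four (n : ℕ) (hn : 2 ≤ n) (hsq : Squarefree n) :
    (cyc n 2 : ZMod 4) = -1 := by
  induction n using Nat.strong_induction_on with
  | _ n ih =>
    have hprod := prod_cyc (n := n) (b := 2) (by omega) (by omega)
    have h1 : ((∏ d ∈ n.divisors, cyc d 2 : ℕ) : ZMod 4) = -1 := by
      rw [hprod]
      have h4 : 4 ∣ 2 ^ n := by
        calc (4 : ℕ) = 2 ^ 2 := by norm_num
          _ ∣ 2 ^ n := pow_dvd_pow 2 hn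
      have h5 : 1 ≤ 2 ^ n := Nat.one_le_two_pow
      rw [Nat.cast_sub h5]
      have : ((2 ^ n : ℕ) : ZMod 4) = 0 := (ZMod.natCast_eq_zero_iff _ 4).2 h4
      rw [this]; simp
    have hn1 : n ≠ 1 := by omega
    have hmem1 : 1 ∈ n.divisors.erase n := by
      rw [Finset.mem_erase]
      exact ⟨hn1.symm, Nat.one_mem_divisors.2 (by omega)⟩
    rw [Nat.cast_prod, ← Finset.mul_prod_erase _ _ (Nat.mem_divisors_self n (by omega)),
      ← Finset.mul_prod_erase _ _ hmem1] at h1
    have h2 : ∏ d ∈ (n.divisors.erase n).erase 1, ((cyc d 2 : ℕ) : ZMod 4)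
        = ∏ d ∈ (n.divisors.erase n).erase 1, (-1 : ZMod 4) := by
      apply Finset.prod_congr rfl
      intro d hd
      rw [Finset.mem_erase, Finset.mem_erase, Nat.mem_divisors] at hd
      obtain ⟨hd1, hd2, hd3, -⟩ := hd
      have hd0 : 0 < d := Nat.pos_of_dvd_of_pos hd3 (by omega)
      have hdle : d ≤ n := Nat.le_of_dvd (by omega) hd3
      exact ih d (by omega) (by omega) (hsq.squarefree_of_dvd hd3)
    rw [h2, Finset.prod_const, cyc_one_two, Nat.cast_one, one_mul] at h1
    have hcard : Even ((n.divisors.erase n).erase 1).card := by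
      rw [Finset.card_erase_of_mem hmem1,
        Finset.card_erase_of_mem (Nat.mem_divisors_self n (by omega))]
      obtain ⟨c, hc⟩ := even_card_divisors hn hsq
      rw [hc]
      exact ⟨c - 1, by omega⟩
    rw [hcard.neg_one_pow, mul_one] at h1
    exact h1

lemma exists_three_mod_four {N : ℕ} (hN : (N : ZMod 4) = -1) :
    ∃ p, p.Prime ∧ p ∣ N ∧ p % 4 = 3 ∧ Odd (padicValNat p N) := by
  by_contra hcon
  push Not at hcon
  have hN0 : N ≠ 0 := by
    rintro rfl
    revert hN; decide
  have hodd : ¬ 2 ∣ N := by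
    rintro ⟨k, rfl⟩
    have : ((2 * k : ℕ) : ZMod 4) * 2 = 0 := by
      push_cast
      have : (2 : ZMod 4) * (k : ZMod 4) * 2 = (k : ZMod 4) * ((2 : ZMod 4) * 2) := by ring
      rw [this]
      have : (2 : ZMod 4) * 2 = 0 := by decide
      rw [this, mul_zero]
    rw [hN] at this
    revert this; decide
  have h1 : (N : ZMod 4) = 1 := by
    conv_lhs => rw [← Nat.prod_factorization_pow_eq_self hN0]
    rw [Finsupp.prod, Nat.cast_prod]
    apply Finset.prod_eq_one
    intro p hp
    have hp' := Nat.support_factorization N ▸ hp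
    have hpp := Nat.prime_of_mem_primeFactors hp'
    have hpd := Nat.dvd_of_mem_primeFactors hp'
    have hpodd : p % 2 = 1 := by
      rcases hpp.eq_two_or_odd with h | h
      · exact absurd (h ▸ hpd) hodd
      · exact h
    have hp4 : p % 4 = 1 ∨ p % 4 = 3 := by omega
    rcases hp4 with h | h
    · have : ((p : ℕ) : ZMod 4) = 1 := by
        have h2 : p ≡ 1 [MOD 4] := h
        have := (ZMod.natCast_eq_natCast_iff p 1 4).2 h2
        simpa using this
      rw [Nat.cast_pow, this, one_pow]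
    · have h3 := hcon p hpp hpd h
      rw [Nat.not_odd_iff_even] at h3
      have : ((p : ℕ) : ZMod 4) = -1 := by
        have h2 : p ≡ 3 [MOD 4] := h
        have := (ZMod.natCast_eq_natCast_iff p 3 4).2 h2
        rw [this]; decide
      rw [Nat.cast_pow, this, Nat.factorization_def _ hpp, h3.neg_one_pow]
  rw [h1] at hN
  revert hN; decide

/-- `n` is intrinsic if some prime divides both `n` and `Φ_n(2)` -/
def Intrinsic (n : ℕ) : Prop := ∃ p, p.Prime ∧ p ∣ n ∧ p ∣ cyc n 2

lemma exists_prime_of_not_intrinsic {n : ℕ} (hn : 2 ≤ n) (hsq : Squarefree n)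
    (hi : ¬ Intrinsic n) : ∃ p, p.Prime ∧ p < 2 ^ n ∧ p % 4 = 3 ∧ orderOf ((2 : ℕ) : ZMod p) = n ∧
      Odd (padicValNat p (2 ^ (p - 1) - 1)) := by
  obtain ⟨p, hp, hpN, hp4, hodd⟩ := exists_three_mod_four (cyc_two_mod_four n hn hsq)
  have hpn : ¬ p ∣ n := fun h => hi ⟨p, hp, h, hpN⟩
  have hord := order_of_dvd hp hpn hpN
  have hp2 : p ≠ 2 := by rintro rfl; omega
  refine ⟨p, hp, ?_, hp4, hord, ?_⟩
  · have h1 : cyc n 2 ∣ 2 ^ n - 1 := by
      rw [← prod_cyc (n := n) (b := 2) (by omega) (by omega)]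
      exact Finset.dvd_prod_of_mem (fun d => cyc d 2) (Nat.mem_divisors_self n (by omega))
    have h2 : 1 < 2 ^ n := Nat.one_lt_two_pow (by omega)
    have h3 := Nat.le_of_dvd (by omega) (hpN.trans h1)
    omega
  · rw [val_fermat hp hp2 le_rfl (by omega) hord, val_cyc hp le_rfl (by omega) hpn hord]
    exact hodd

/-- count of non-squarefree numbers -/
lemma card_not_squarefree (N : ℕ) :
    2 * ((Finset.Ioc 0 N).filter (fun n => ¬ Squarefree n)).card ≤ N := by
  have hsub : (Finset.Ioc 0 N).filter (fun n => ¬ Squarefree n) ⊆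
      (Finset.Ioc 0 N).filter (fun n => 4 ∣ n) ∪
        (Finset.Icc 1 N).biUnion (fun k => (Finset.Ioc 0 N).filter (fun n => (2 * k + 1) ^ 2 ∣ n)) := by
    intro n hn
    rw [Finset.mem_filter, Nat.squarefree_iff_prime_squarefree] at hn
    obtain ⟨hn1, hn2⟩ := hn
    push Not at hn2
    obtain ⟨p, hp, hpn⟩ := hn2
    rw [Finset.mem_union]
    rcases hp.eq_two_or_odd with h | h
    · left
      rw [Finset.mem_filter]
      refine ⟨hn1, ?_⟩
      rw [h] at hpn; exact hpn
    · right
      rw [Finset.mem_biUnion]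
      have hp2 := hp.two_le
      have hk : p = 2 * (p / 2) + 1 := by omega
      have hle : p * p ≤ n := Nat.le_of_dvd (Finset.mem_Ioc.1 hn1).1 hpn
      have hnN := (Finset.mem_Ioc.1 hn1).2
      refine ⟨p / 2, ?_, ?_⟩
      · rw [Finset.mem_Icc]
        constructor
        · omega
        · have : p / 2 ≤ p := Nat.div_le_self _ _
          nlinarith
      · rw [Finset.mem_filter]
        refine ⟨hn1, ?_⟩
        rw [← hk, sq]; exact hpn
  have h1 := Finset.card_le_card hsub
  have h2 := h1.trans (Finset.card_union_le _ _)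
  have h3 : ((Finset.Icc 1 N).biUnion
      (fun k => (Finset.Ioc 0 N).filter (fun n => (2 * k + 1) ^ 2 ∣ n))).card
      ≤ ∑ k ∈ Finset.Icc 1 N, N / (2 * k + 1) ^ 2 := by
    refine Finset.card_biUnion_le.trans ?_
    apply Finset.sum_le_sum
    intro k _
    rw [Nat.Ioc_filter_dvd_card_eq_div]
  rw [Nat.Ioc_filter_dvd_card_eq_div] at h2
  have h4 : ((∑ k ∈ Finset.Icc 1 N, N / (2 * k + 1) ^ 2 : ℕ) : ℝ) ≤ N / 4 := by
    push_cast
    have h5 : ∀ k ∈ Finset.Icc 1 N, ((N / (2 * k + 1) ^ 2 : ℕ) : ℝ) ≤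
        (N : ℝ) / 4 * (1 / (k : ℝ) - 1 / ((k : ℝ) + 1)) := by
      intro k hk
      have hk1 : (1 : ℝ) ≤ k := by exact_mod_cast (Finset.mem_Icc.1 hk).1
      refine (Nat.cast_div_le).trans ?_
      push_cast
      have e1 : (1 / (k : ℝ) - 1 / ((k : ℝ) + 1)) = 1 / ((k : ℝ) * (k + 1)) := by
        field_simp; ring
      rw [e1]
      have e2 : (N : ℝ) / 4 * (1 / ((k : ℝ) * (k + 1))) = N / (4 * (k * (k + 1))) := by
        field_simp
      rw [e2]
      apply div_le_div_of_nonneg_left (by positivity) (by positivity)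
      nlinarith
    refine (Finset.sum_le_sum h5).trans ?_
    rw [← Finset.mul_sum]
    have h6 : ∀ M : ℕ, ∑ k ∈ Finset.Icc 1 M, (1 / (k : ℝ) - 1 / ((k : ℝ) + 1))
        = 1 - 1 / ((M : ℝ) + 1) := by
      intro M
      induction M with
      | zero => simp
      | succ M ih =>
        rw [Finset.sum_Icc_succ_top (by omega), ih]
        push_cast
        ring
    rw [h6]
    have h7 : (0 : ℝ) ≤ 1 / ((N : ℝ) + 1) := by positivity
    have h8 : (0 : ℝ) ≤ N := by positivity
    nlinarith
  have h9 : ((N / 4 : ℕ) : ℝ) ≤ (N : ℝ) / 4 := Nat.cast_div_le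
  have h10 : (((Finset.Ioc 0 N).filter (fun n => ¬ Squarefree n)).card : ℝ) ≤ N / 4 + N / 4 := by
    refine le_trans ?_ (add_le_add h9 h4)
    exact_mod_cast h2.trans (Nat.add_le_add_left h3 _)
  have h11 : ((2 * ((Finset.Ioc 0 N).filter (fun n => ¬ Squarefree n)).card : ℕ) : ℝ) ≤ N := by
    push_cast; linarith
  exact_mod_cast h11

open Classical in
/-- count of squarefree intrinsic numbers -/
lemma card_intrinsic (N : ℕ) :
    4 * ((Finset.Icc 2 N).filter (fun n => Squarefree n ∧ Intrinsic n)).card ≤ N := by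
  -- map to odd numbers 3, 5, ..., ≤ N / 2
  have hex : ∀ n, ∃ p, (n ∈ (Finset.Icc 2 N).filter (fun n => Squarefree n ∧ Intrinsic n)) →
      (p % 2 = 1 ∧ 3 ≤ p ∧ 2 * p ≤ N ∧ n = p * orderOf ((2 : ℕ) : ZMod p)) := by
    intro n
    by_cases hn : n ∈ (Finset.Icc 2 N).filter (fun n => Squarefree n ∧ Intrinsic n)
    · rw [Finset.mem_filter] at hn
      obtain ⟨hn1, hsq, p, hp, hpn, hpc⟩ := hn
      rw [Finset.mem_Icc] at hn1
      obtain ⟨m, hm⟩ := hpn
      have hcop : Nat.Coprime p m := Nat.coprime_of_squarefree_mul (hm ▸ hsq)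
      have hpm : ¬ p ∣ m := (Nat.Prime.coprime_iff_not_dvd hp).1 hcop
      have hord := intrinsic hp (k := 1) (m := m) (by rw [hm, pow_one]) hpm hpc
      have hmpos : 0 < m := by
        rcases Nat.eq_zero_or_pos m with h | h
        · rw [h, mul_zero] at hm; omega
        · exact h
      have hp2 : p ≠ 2 := by
        intro h2
        have := not_dvd_base hp hmpos hord
        apply this; rw [h2]
      have hm1 : m ≠ 1 := by
        intro h1
        have := Fact.mk hp
        have h3 := pow_orderOf_eq_one ((2 : ℕ) : ZMod p)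
        rw [hord, h1, pow_one] at h3
        have h4 : ((2 : ℕ) : ZMod p) = ((1 : ℕ) : ZMod p) := by rw [h3]; simp
        rw [ZMod.natCast_eq_natCast_iff] at h4
        have h5 := (Nat.modEq_iff_dvd' (show 1 ≤ 2 by omega)).1 h4.symm
        have h6 := Nat.le_of_dvd (by omega) h5
        have := hp.two_le
        omega
      refine ⟨p, fun _ => ⟨?_, ?_, ?_, ?_⟩⟩
      · rcases hp.eq_two_or_odd with h | h
        · exact absurd h hp2
        · exact h
      · have := hp.two_le; omega
      · have : 2 ≤ m := by omega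
        nlinarith
      · rw [hord]; exact hm
    · exact ⟨0, fun h => absurd h hn⟩
  choose f hf using hex
  have hcard : ((Finset.Icc 2 N).filter (fun n => Squarefree n ∧ Intrinsic n)).card ≤
      (Finset.Icc 1 ((N / 2 - 1) / 2)).card := by
    apply Finset.card_le_card_of_injOn (fun n => f n / 2)
    · intro n hn
      obtain ⟨h1, h2, h3, h4⟩ := hf n hn
      simp only [Finset.coe_Icc, Set.mem_Icc]
      constructor
      · omega
      · omega
    · intro a ha b hb hab
      obtain ⟨h1, h2, h3, h4⟩ := hf a ha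
      obtain ⟨h1', h2', h3', h4'⟩ := hf b hb
      have hfe : f a = f b := by
        simp only at hab
        omega
      rw [h4, h4', hfe]
  rw [Nat.card_Icc] at hcard
  omega

open Classical in
/-- squarefree non intrinsic numbers in `[2, N]` -/
noncomputable def goodSet (N : ℕ) : Finset ℕ :=
  (Finset.Icc 2 N).filter (fun n => Squarefree n ∧ ¬ Intrinsic n)

open Classical in
lemma mem_goodSet {N n : ℕ} :
    n ∈ goodSet N ↔ (2 ≤ n ∧ n ≤ N) ∧ Squarefree n ∧ ¬ Intrinsic n := by
  unfold goodSet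
  rw [Finset.mem_filter, Finset.mem_Icc]

open Classical in
/-- count of squarefree non intrinsic numbers -/
lemma card_good (N : ℕ) : N ≤ 4 * (goodSet N).card + 4 := by
  unfold goodSet
  have h1 := card_not_squarefree N
  have h2 := card_intrinsic N
  have h3 : (Finset.Ioc 0 N).card ≤ ((Finset.Ioc 0 N).filter (fun n => ¬ Squarefree n)).card
      + ((Finset.Icc 2 N).filter (fun n => Squarefree n ∧ Intrinsic n)).card
      + ((Finset.Icc 2 N).filter (fun n => Squarefree n ∧ ¬ Intrinsic n)).card + 1 := by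
    have hsub : Finset.Ioc 0 N ⊆ (((Finset.Ioc 0 N).filter (fun n => ¬ Squarefree n)) ∪
        ((Finset.Icc 2 N).filter (fun n => Squarefree n ∧ Intrinsic n))) ∪
        ((Finset.Icc 2 N).filter (fun n => Squarefree n ∧ ¬ Intrinsic n)) ∪ {1} := by
      intro n hn
      rw [Finset.mem_Ioc] at hn
      simp only [Finset.mem_union, Finset.mem_filter, Finset.mem_Ioc, Finset.mem_Icc,
        Finset.mem_singleton]
      by_cases hs : Squarefree n
      · by_cases h1 : n = 1
        · exact Or.inr h1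
        · by_cases hi : Intrinsic n
          · exact Or.inl (Or.inl (Or.inr ⟨⟨by omega, hn.2⟩, hs, hi⟩))
          · exact Or.inl (Or.inr ⟨⟨by omega, hn.2⟩, hs, hi⟩)
      · exact Or.inl (Or.inl (Or.inl ⟨hn, hs⟩))
    refine (Finset.card_le_card hsub).trans ?_
    refine (Finset.card_union_le _ _).trans ?_
    rw [Finset.card_singleton]
    gcongr
    refine (Finset.card_union_le _ _).trans ?_
    gcongr
    exact Finset.card_union_le _ _
  rw [Nat.card_Ioc] at h3
  omega

end Pool.Agent.H76
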