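import Mathlib

set_option autoImplicit false

namespace Pool.Agent.H76

open Polynomial

/-- the value of the `n`-th cyclotomic polynomial at the natural number `b`, as a natural number -/
noncomputable def cyc (n b : ℕ) : ℕ := ((cyclotomic n ℤ).eval (b : ℤ)).natAbs

lemma cyc_dvd_iff {n b p : ℕ} :
    p ∣ cyc n b ↔ (p : ℤ) ∣ (cyclotomic n ℤ).eval (b : ℤ) := by
  unfold cyc
  rw [Int.natCast_dvd]

lemma isRoot_of_dvd {n b p : ℕ} (h : p ∣ cyc n b) :
    (cyclotomic n (ZMod p)).IsRoot (b : ZMod p) := by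
  rw [cyc_dvd_iff] at h
  have h2 : (((cyclotomic n ℤ).eval (b : ℤ) : ℤ) : ZMod p) = 0 :=
    (ZMod.intCast_zmod_eq_zero_iff_dvd _ p).2 h
  rw [Polynomial.IsRoot.def, ← map_cyclotomic_int n (ZMod p)]
  have := Polynomial.eval_intCast_map (Int.castRingHom (ZMod p)) (cyclotomic n ℤ) (b : ℤ)
  simp only [Int.cast_natCast, eq_intCast] at this
  rw [this, h2]

lemma dvd_of_isRoot {n b p : ℕ} (h : (cyclotomic n (ZMod p)).IsRoot (b : ZMod p)) :
    p ∣ cyc n b := by
  rw [cyc_dvd_iff, ← ZMod.intCast_zmod_eq_zero_iff_dvd]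
  rw [Polynomial.IsRoot.def, ← map_cyclotomic_int n (ZMod p)] at h
  have := Polynomial.eval_intCast_map (Int.castRingHom (ZMod p)) (cyclotomic n ℤ) (b : ℤ)
  simp only [Int.cast_natCast, eq_intCast] at this
  rw [← this, h]

lemma order_of_dvd {n b p : ℕ} (hp : p.Prime) (hpn : ¬ p ∣ n) (h : p ∣ cyc n b) :
    orderOf (b : ZMod p) = n := by
  have := Fact.mk hp
  have : NeZero (n : ZMod p) := ⟨by
    intro h0; exact hpn ((ZMod.natCast_eq_zero_iff n p).1 h0)⟩
  have := isRoot_of_dvd h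
  rw [isRoot_cyclotomic_iff] at this
  exact this.eq_orderOf.symm

lemma dvd_of_order {n b p : ℕ} (hp : p.Prime) (hn : 0 < n) 
    (h : orderOf (b : ZMod p) = n) : p ∣ cyc n b := by
  have := Fact.mk hp
  apply dvd_of_isRoot
  have : IsPrimitiveRoot (b : ZMod p) n := by
    rw [← h]; exact IsPrimitiveRoot.orderOf _
  exact this.isRoot_cyclotomic hn

/-- if a prime `p` divides both `n` and `Φ_n(b)` then the `p`-free part of `n` divides `p - 1` -/
lemma intrinsic {n b p k m : ℕ} (hp : p.Prime) (hn : n = p ^ k * m) (hpm : ¬ p ∣ m)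
    (h : p ∣ cyc n b) : orderOf (b : ZMod p) = m := by
  have := Fact.mk hp
  have : NeZero (m : ZMod p) := ⟨by
    intro h0; exact hpm ((ZMod.natCast_eq_zero_iff m p).1 h0)⟩
  have := isRoot_of_dvd h
  rw [hn, isRoot_cyclotomic_prime_pow_mul_iff_of_charP] at this
  exact this.eq_orderOf.symm

lemma order_dvd_sub_one {b p : ℕ} (hp : p.Prime) (hb : ¬ p ∣ b) :
    orderOf (b : ZMod p) ∣ p - 1 := by
  have := Fact.mk hp
  apply orderOf_dvd_of_pow_eq_one
  apply ZMod.pow_card_sub_one_eq_one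
  intro h0; exact hb ((ZMod.natCast_eq_zero_iff b p).1 h0)

lemma not_dvd_base {n b p : ℕ} (hp : p.Prime) (hn : 0 < n)
    (h : orderOf (b : ZMod p) = n) : ¬ p ∣ b := by
  have := Fact.mk hp
  intro hd
  have h0 : (b : ZMod p) = 0 := (ZMod.natCast_eq_zero_iff b p).2 hd
  have h1 := pow_orderOf_eq_one (b : ZMod p)
  rw [h, h0, zero_pow hn.ne'] at h1
  exact zero_ne_one h1

lemma prod_cyc {n b : ℕ} (hn : 0 < n) (hb : 1 ≤ b) :
    ∏ d ∈ n.divisors, cyc d b = b ^ n - 1 := by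
  have h := congrArg (fun P => (P.eval (b : ℤ)).natAbs) (prod_cyclotomic_eq_X_pow_sub_one hn ℤ)
  simp only [eval_prod, eval_sub, eval_pow, eval_X, eval_one] at h
  have h2 : (∏ d ∈ n.divisors, eval (b : ℤ) (cyclotomic d ℤ)).natAbs
      = ∏ d ∈ n.divisors, cyc d b := by
    unfold cyc
    exact map_prod Int.natAbsHom _ _
  rw [← h2, h]
  have : 1 ≤ b ^ n := Nat.one_le_pow _ _ hb
  have h3 : ((b : ℤ) ^ n - 1) = ((b ^ n - 1 : ℕ) : ℤ) := by
    rw [Nat.cast_sub this]; simp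
  rw [h3, Int.natAbs_natCast]

lemma cyc_pos {n b : ℕ} (hn : 0 < n) (hb : 2 ≤ b) : 0 < cyc n b := by
  have h := prod_cyc hn (by omega : 1 ≤ b)
  have hpos : 0 < b ^ n - 1 := by
    have : 1 < b ^ n := Nat.one_lt_pow hn.ne' (by omega)
    omega
  rw [← h] at hpos
  rcases Nat.eq_zero_or_pos (cyc n b) with h0 | h0
  · exfalso
    have := Finset.prod_eq_zero (f := fun d => cyc d b) (Nat.mem_divisors_self n hn.ne') h0
    omega
  · exact h0

lemma one_lt_cyc {n b : ℕ} (hn : 2 ≤ n) (hb : 2 ≤ b) : 1 < cyc n b := by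
  have := sub_one_lt_natAbs_cyclotomic_eval (n := n) (q := b) (by omega) (by omega)
  unfold cyc; omega

lemma val_cyc {n b p : ℕ} (hp : p.Prime) (hb : 2 ≤ b) (hn : 0 < n) (hpn : ¬ p ∣ n)
    (h : orderOf (b : ZMod p) = n) :
    padicValNat p (b ^ n - 1) = padicValNat p (cyc n b) := by
  have := Fact.mk hp
  rw [← prod_cyc hn (by omega)]
  rw [← Finset.mul_prod_erase _ _ (Nat.mem_divisors_self n hn.ne')]
  have hne : ∏ d ∈ n.divisors.erase n, cyc d b ≠ 0 := by
    apply Finset.prod_ne_zero_iff.2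
    intro d hd
    have hd' := Nat.mem_divisors.1 (Finset.mem_of_mem_erase hd)
    exact (cyc_pos (Nat.pos_of_dvd_of_pos hd'.1 hn) hb).ne'
  rw [padicValNat.mul (cyc_pos hn hb).ne' hne]
  have : padicValNat p (∏ d ∈ n.divisors.erase n, cyc d b) = 0 := by
    apply padicValNat.eq_zero_of_not_dvd
    intro hd
    obtain ⟨d, hd1, hd2⟩ := (hp.prime.dvd_finsetProd_iff _).1 hd
    have hd' := Nat.mem_divisors.1 (Finset.mem_of_mem_erase hd1)
    have hpd : ¬ p ∣ d := fun hh => hpn (hh.trans hd'.1)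
    have := order_of_dvd hp hpd hd2
    exact (Finset.ne_of_mem_erase hd1) (this ▸ h)
  rw [this, add_zero]

lemma val_fermat {n b p : ℕ} (hp : p.Prime) (hp2 : p ≠ 2) (hb : 2 ≤ b) (hn : 0 < n)
    (h : orderOf (b : ZMod p) = n) :
    padicValNat p (b ^ (p - 1) - 1) = padicValNat p (b ^ n - 1) := by
  have := Fact.mk hp
  have hpb := not_dvd_base hp hn h
  have hdvd := order_dvd_sub_one hp hpb
  rw [h] at hdvd
  obtain ⟨c, hc⟩ := hdvd
  have hp1 : 0 < p - 1 := by have := hp.two_le; omega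
  have hc0 : c ≠ 0 := by rintro rfl; omega
  have hpc : ¬ p ∣ c := by
    intro hh
    have h1 : p ≤ c := Nat.le_of_dvd (Nat.pos_of_ne_zero hc0) hh
    have h2 : c ≤ n * c := Nat.le_mul_of_pos_left c hn
    omega
  rw [hc, pow_mul]
  have hodd : Odd p := hp.odd_of_ne_two hp2
  have h1 : 1 < b ^ n := Nat.one_lt_pow hn.ne' (by omega)
  have hd : p ∣ b ^ n - 1 := by
    rw [← ZMod.natCast_eq_zero_iff, Nat.cast_sub h1.le]
    simp only [Nat.cast_pow, Nat.cast_one]
    rw [← h, pow_orderOf_eq_one, sub_self]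
  have hnd : ¬ p ∣ b ^ n := fun hh => hpb (hp.dvd_of_dvd_pow hh)
  have := padicValNat.pow_sub_pow hodd h1 hd hnd hc0
  rw [one_pow] at this
  rw [this, padicValNat.eq_zero_of_not_dvd hpc, add_zero]

end Pool.Agent.H76
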