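import Pool.Agent.H76.PowerFree

set_option autoImplicit false

namespace Pool.Agent.Results.MP_62d99c_nt.ExponentsAP

open Pool.Agent.H76

/-- `W ℓ k` is the set of primes `p` with `ℓ ^ (p - 1) ≡ 1 (mod p ^ k)`. -/
def W (ℓ k : ℕ) : Set ℕ := {p | p.Prime ∧ ℓ ^ (p - 1) ≡ 1 [MOD p ^ k]}

/-- For all integers `ℓ ≥ 2`, `m ≥ 1`, `r ≥ 2` there are infinitely many primes `p ≡ 1 (mod m)`,
whose order `ord_p(ℓ)` is even divisible by `m`, such that the exact exponent `k` of `p` in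
`ℓ ^ (p - 1) - 1` is not divisible by `r`. -/
theorem result (ℓ m r : ℕ) (hℓ : 2 ≤ ℓ) (hm : 1 ≤ m) (hr : 2 ≤ r) :
    {p : ℕ | p ≡ 1 [MOD m] ∧ m ∣ orderOf (ℓ : ZMod p) ∧
      ∃ k : ℕ, ¬ r ∣ k ∧ p ∈ W ℓ k \ W ℓ (k + 1)}.Infinite := by
  rw [Set.infinite_iff_exists_gt]
  intro B
  obtain ⟨p, hB, hp, hm1, hm2, hr1⟩ := main ℓ m r B hℓ hm hr
  have hp2 := hp.two_le
  have := Fact.mk hp
  refine ⟨p, ⟨?_, hm1, padicValNat p (ℓ ^ (p - 1) - 1), hr1, ⟨hp, ?_⟩, ?_⟩, hB⟩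
  · exact ((Nat.modEq_iff_dvd' (by omega)).2 (hm1.trans hm2)).symm
  · have h1 : 1 ≤ ℓ ^ (p - 1) := Nat.one_le_pow _ _ (by omega)
    exact ((Nat.modEq_iff_dvd' h1).2 pow_padicValNat_dvd).symm
  · rintro ⟨-, h⟩
    have h1 : 1 < ℓ ^ (p - 1) := Nat.one_lt_pow (by omega) (by omega)
    have h2 := (Nat.modEq_iff_dvd' h1.le).1 h.symm
    exact pow_succ_padicValNat_not_dvd (by omega) h2

end Pool.Agent.Results.MP_62d99c_nt.ExponentsAP
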