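import Pool.Agent.H76.Cyc

set_option autoImplicit false

namespace Pool.Agent.H76

open Polynomial

lemma exists_order_prime (b M : ℕ) (hb : 2 ≤ b) (hM : 0 < M) :
    ∃ t e : ℕ, t.Prime ∧ M ∣ e ∧ 2 ≤ e ∧ ¬ t ∣ e ∧ orderOf (b : ZMod t) = e := by
  have hj : 3 * M < 2 ^ (3 * M) := Nat.lt_two_pow_self
  set j := 3 * M with hjdef
  set e := 3 * M * 2 ^ j with he
  have hepos : 0 < e := by positivity
  have he2 : 2 ≤ e := by
    have : 1 ≤ 2 ^ j := Nat.one_le_two_pow
    nlinarith
  have h1 := one_lt_cyc he2 hb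
  set t := (cyc e b).minFac with ht
  have htp : t.Prime := Nat.minFac_prime (by omega)
  have htd : t ∣ cyc e b := Nat.minFac_dvd _
  refine ⟨t, e, htp, ⟨3 * 2 ^ j, by rw [he]; ring⟩, he2, ?_, ?_⟩
  · intro hte
    obtain ⟨k, m, hm, hkm⟩ := Nat.exists_eq_pow_mul_and_not_dvd hepos.ne' t htp.ne_one
    have ho := intrinsic htp hkm hm htd
    have hmpos : 0 < m := by
      rcases Nat.eq_zero_or_pos m with h | h
      · rw [h, mul_zero] at hkm; omega
      · exact h
    have htb := not_dvd_base htp hmpos ho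
    have hd := order_dvd_sub_one htp htb
    rw [ho] at hd
    have htle : m ≤ t - 1 := Nat.le_of_dvd (by have := htp.two_le; omega) hd
    by_cases ht2 : t = 2
    · rw [ht2] at htle
      have hm1 : m = 1 := by omega
      rw [hm1, mul_one, ht2] at hkm
      have h3 : 3 ∣ 2 ^ k := by rw [← hkm, he]; exact ⟨M * 2 ^ j, by ring⟩
      have := Nat.Prime.dvd_of_dvd_pow Nat.prime_three h3
      omega
    · have hcop : Nat.Coprime (2 ^ j) (t ^ k) := by
        apply Nat.Coprime.pow
        rw [Nat.coprime_primes Nat.prime_two htp]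
        exact fun h => ht2 h.symm
      have h2 : 2 ^ j ∣ t ^ k * m := by rw [← hkm, he]; exact Dvd.intro_left _ rfl
      have h3 : 2 ^ j ∣ m := hcop.dvd_of_dvd_mul_left h2
      have h4 : 2 ^ j ≤ m := Nat.le_of_dvd hmpos h3
      have h5 : t ∣ 3 * M := by
        have : t ∣ 3 * M * 2 ^ j := hte
        rcases (Nat.Prime.dvd_mul htp).1 this with h | h
        · exact h
        · exfalso
          have := htp.dvd_of_dvd_pow h
          rw [Nat.prime_dvd_prime_iff_eq htp Nat.prime_two] at this
          exact ht2 this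
      have h6 : t ≤ 3 * M := Nat.le_of_dvd (by omega) h5
      omega
  · by_cases hte : t ∣ e
    · exfalso
      obtain ⟨k, m, hm, hkm⟩ := Nat.exists_eq_pow_mul_and_not_dvd hepos.ne' t htp.ne_one
      have ho := intrinsic htp hkm hm htd
      have hmpos : 0 < m := by
        rcases Nat.eq_zero_or_pos m with h | h
        · rw [h, mul_zero] at hkm; omega
        · exact h
      have htb := not_dvd_base htp hmpos ho
      have hd := order_dvd_sub_one htp htb
      rw [ho] at hd
      have htle : m ≤ t - 1 := Nat.le_of_dvd (by have := htp.two_le; omega) hd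
      by_cases ht2 : t = 2
      · rw [ht2] at htle
        have hm1 : m = 1 := by omega
        rw [hm1, mul_one, ht2] at hkm
        have h3 : 3 ∣ 2 ^ k := by rw [← hkm, he]; exact ⟨M * 2 ^ j, by ring⟩
        have := Nat.Prime.dvd_of_dvd_pow Nat.prime_three h3
        omega
      · have hcop : Nat.Coprime (2 ^ j) (t ^ k) := by
          apply Nat.Coprime.pow
          rw [Nat.coprime_primes Nat.prime_two htp]
          exact fun h => ht2 h.symm
        have h2 : 2 ^ j ∣ t ^ k * m := by rw [← hkm, he]; exact Dvd.intro_left _ rfl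
        have h3 : 2 ^ j ∣ m := hcop.dvd_of_dvd_mul_left h2
        have h4 : 2 ^ j ≤ m := Nat.le_of_dvd hmpos h3
        have h5 : t ∣ 3 * M := by
          have : t ∣ 3 * M * 2 ^ j := hte
          rcases (Nat.Prime.dvd_mul htp).1 this with h | h
          · exact h
          · exfalso
            have := htp.dvd_of_dvd_pow h
            rw [Nat.prime_dvd_prime_iff_eq htp Nat.prime_two] at this
            exact ht2 this
        have h6 : t ≤ 3 * M := Nat.le_of_dvd (by omega) h5
        omega
    · exact order_of_dvd htp hte htd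

/-- `Φ_{eq}(β) = q` in a field where `β` is a primitive `e`-th root of unity and `q ≡ 1 (mod e)`. -/
lemma eval_cyclotomic_mul {F : Type*} [Field F] {e q : ℕ} [NeZero (e : F)] {β : F}
    (hβ : IsPrimitiveRoot β e) (hq : q.Prime) (hqe : ¬ q ∣ e) (h1 : q ≡ 1 [MOD e])
    (he : 0 < e) : (cyclotomic (e * q) F).eval β = (q : F) := by
  have hroot : (cyclotomic e F).IsRoot β := hβ.isRoot_cyclotomic he
  have hq1 : e ∣ q - 1 := (Nat.modEq_iff_dvd' hq.one_le).1 h1.symm
  have hpow1 : β ^ (q - 1) = 1 := (hβ.pow_eq_one_iff_dvd _).2 hq1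
  have hpow : β ^ q = β := by
    have : q = (q - 1) + 1 := by have := hq.one_le; omega
    rw [this, pow_succ, hpow1, one_mul]
  have hexp := cyclotomic_expand_eq_cyclotomic_mul hq hqe F
  have hder := congrArg derivative hexp
  rw [derivative_expand, derivative_mul] at hder
  have hev := congrArg (eval β) hder
  simp only [eval_mul, eval_add, expand_eval, hpow, eval_natCast, eval_pow, eval_X, hpow1,
    hroot.eq_zero, mul_zero, zero_add, mul_one] at hev
  have hsep := separable_cyclotomic e F
  have hne : eval β (derivative (cyclotomic e F)) ≠ 0 := by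
    have := hsep.aeval_derivative_ne_zero (x := β) (by simpa [aeval_def] using hroot.eq_zero)
    simpa [aeval_def] using this
  rw [mul_comm] at hev
  exact (mul_right_cancel₀ hne hev).symm

lemma exists_non_power {t b e r : ℕ} (ht : t.Prime) (hr : 2 ≤ r) (hre : r ∣ e) (he : 0 < e)
    (ho : orderOf (b : ZMod t) = e) : ∃ g : (ZMod t)ˣ, ∀ y : ZMod t, y ^ r ≠ (g : ZMod t) := by
  have := Fact.mk ht
  have hb0 : (b : ZMod t) ≠ 0 := by
    intro h0
    exact not_dvd_base ht he ho ((ZMod.natCast_eq_zero_iff b t).1 h0)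
  by_contra hcon
  push Not at hcon
  have hsurj : Function.Surjective (fun u : (ZMod t)ˣ => u ^ r) := by
    intro g
    obtain ⟨y, hy⟩ := hcon g
    have hy0 : y ≠ 0 := by
      rintro rfl
      rw [zero_pow (by omega)] at hy
      exact g.ne_zero hy.symm
    refine ⟨Units.mk0 y hy0, ?_⟩
    ext
    simpa using hy
  have hinj : Function.Injective (fun u : (ZMod t)ˣ => u ^ r) :=
    Finite.injective_iff_surjective.2 hsurj
  obtain ⟨c, hc⟩ := hre
  have hcpos : 0 < c := by
    rcases Nat.eq_zero_or_pos c with h | h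
    · rw [h, mul_zero] at hc; omega
    · exact h
  have h1 : (Units.mk0 (b : ZMod t) hb0) ^ c = 1 := by
    apply hinj
    simp only [one_pow]
    rw [← pow_mul, mul_comm, ← hc]
    ext
    simp only [Units.val_pow_eq_pow_val, Units.val_mk0, Units.val_one]
    rw [← ho, pow_orderOf_eq_one]
  have h2 : (b : ZMod t) ^ c = 1 := by
    have := congrArg (fun u : (ZMod t)ˣ => (u : ZMod t)) h1
    simpa using this
  have h3 := orderOf_dvd_of_pow_eq_one h2
  rw [ho, hc] at h3
  have h4 := Nat.le_of_dvd hcpos h3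
  nlinarith

lemma exists_pow_of_dvd_padic {N r : ℕ} (hN : N ≠ 0) 
    (h : ∀ p : ℕ, p.Prime → p ∣ N → r ∣ padicValNat p N) : ∃ y, y ^ r = N := by
  refine ⟨N.factorization.prod (fun p k => p ^ (k / r)), ?_⟩
  rw [Finsupp.prod, ← Finset.prod_pow]
  conv_rhs => rw [← Nat.prod_factorization_pow_eq_self hN]
  rw [Finsupp.prod]
  apply Finset.prod_congr rfl
  intro p hp
  have hp' := Nat.support_factorization N ▸ hp
  have hpp := Nat.prime_of_mem_primeFactors hp'
  have hpd := Nat.dvd_of_mem_primeFactors hp'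
  have := h p hpp hpd
  rw [← pow_mul, Nat.factorization_def _ hpp, Nat.div_mul_cancel this]

/-- the main statement: for every bound `B` there is a prime `p > B` with `m ∣ ord_p(b)` and
`r ∤ v_p(b^(p-1) - 1)`. -/
theorem main (b m r B : ℕ) (hb : 2 ≤ b) (hm : 1 ≤ m) (hr : 2 ≤ r) :
    ∃ p : ℕ, B < p ∧ p.Prime ∧ m ∣ orderOf (b : ZMod p) ∧ orderOf (b : ZMod p) ∣ p - 1 ∧
      ¬ r ∣ padicValNat p (b ^ (p - 1) - 1) := by
  obtain ⟨t, e, ht, hMe, he2, hte, hord⟩ := exists_order_prime b (m * r) hb (by positivity)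
  have hme : m ∣ e := (Dvd.intro _ rfl).trans hMe
  have hre : r ∣ e := (Dvd.intro_left _ rfl).trans hMe
  have hepos : 0 < e := by omega
  obtain ⟨g, hg⟩ := exists_non_power ht hr hre hepos hord
  have := Fact.mk ht
  have hcop : Nat.Coprime e t := ((Nat.Prime.coprime_iff_not_dvd ht).2 hte).symm
  obtain ⟨a, ha1, ha2⟩ := Nat.chineseRemainder hcop 1 (g : ZMod t).val
  have hacop : Nat.Coprime a (e * t) := by
    apply Nat.Coprime.mul_right
    · have := ha1.gcd_eq
      rw [Nat.gcd_one_left] at this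
      exact this
    · have h1 : (a : ZMod t) = (g : ZMod t) := by
        have := (ZMod.natCast_eq_natCast_iff _ _ _).2 ha2
        rw [this, ZMod.natCast_val, ZMod.cast_id', id]
      have h2 : IsUnit (a : ZMod t) := by rw [h1]; exact g.isUnit
      exact (ZMod.isUnit_iff_coprime a t).1 h2
  have hbe : 1 < b ^ e := Nat.one_lt_pow hepos.ne' (by omega)
  obtain ⟨q, hqB, hqp, hqa⟩ := Nat.forall_exists_prime_gt_and_modEq (B + b ^ e + e)
    (q := e * t) (a := a) (Nat.mul_pos hepos ht.pos).ne' hacop
  have hq1 : q ≡ 1 [MOD e] := (hqa.of_mul_right t).trans ha1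
  have hqg : (q : ZMod t) = (g : ZMod t) := by
    have h1 : q ≡ (g : ZMod t).val [MOD t] := (hqa.of_mul_left e).trans ha2
    have := (ZMod.natCast_eq_natCast_iff _ _ _).2 h1
    rw [this, ZMod.natCast_val, ZMod.cast_id', id]
  have hqe : ¬ q ∣ e := fun h => by have := Nat.le_of_dvd hepos h; omega
  -- residue of N mod t
  set N := cyc (e * q) b with hN
  have heqpos : 0 < e * q := Nat.mul_pos hepos hqp.pos
  have hNpos : 0 < N := cyc_pos heqpos hb
  have : NeZero (e : ZMod t) := ⟨by
    intro h0; exact hte ((ZMod.natCast_eq_zero_iff e t).1 h0)⟩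
  have hprim : IsPrimitiveRoot (b : ZMod t) e := by
    rw [← hord]; exact IsPrimitiveRoot.orderOf _
  have hNt : (N : ZMod t) = (q : ZMod t) := by
    rw [← eval_cyclotomic_mul hprim hqp hqe hq1 hepos]
    have h1 := Polynomial.eval_intCast_map (Int.castRingHom (ZMod t)) (cyclotomic (e * q) ℤ) (b : ℤ)
    simp only [Int.cast_natCast, eq_intCast, map_cyclotomic_int] at h1
    rw [h1]
    have hpos : 0 < (cyclotomic (e * q) ℤ).eval (b : ℤ) :=
      cyclotomic_pos' _ (by exact_mod_cast (by omega : 1 < b))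
    have h2 : ((N : ℕ) : ℤ) = (cyclotomic (e * q) ℤ).eval (b : ℤ) := by
      rw [hN]; unfold cyc; exact Int.natAbs_of_nonneg hpos.le
    rw [← h2, Int.cast_natCast]
  -- some prime has exponent not divisible by r
  have hex : ∃ p : ℕ, p.Prime ∧ p ∣ N ∧ ¬ r ∣ padicValNat p N := by
    by_contra hcon
    push Not at hcon
    obtain ⟨y, hy⟩ := exists_pow_of_dvd_padic hNpos.ne' hcon
    apply hg (y : ZMod t)
    rw [← hqg, ← hNt, ← hy]
    push_cast
    rfl
  obtain ⟨p, hp, hpN, hpr⟩ := hex
  -- p does not divide e * q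
  have hpeq : ¬ p ∣ e * q := by
    intro hd
    obtain ⟨k, n', hn', hkn⟩ := Nat.exists_eq_pow_mul_and_not_dvd heqpos.ne' p hp.ne_one
    have ho := intrinsic hp hkn hn' hpN
    have hn'pos : 0 < n' := by
      rcases Nat.eq_zero_or_pos n' with h | h
      · rw [h, mul_zero] at hkn; omega
      · exact h
    have hpb := not_dvd_base hp hn'pos ho
    have hdv := order_dvd_sub_one hp hpb
    rw [ho] at hdv
    have hle : n' ≤ p - 1 := Nat.le_of_dvd (by have := hp.two_le; omega) hdv
    by_cases hpq : p = q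
    · -- then n' = e and q ∣ b^e - 1
      have hn'e : n' ∣ e := by
        have h1 : n' ∣ e * q := by rw [hkn]; exact Dvd.intro_left _ rfl
        have h2 : Nat.Coprime n' q := by
          rw [Nat.coprime_comm, ← hpq]
          exact (Nat.Prime.coprime_iff_not_dvd hp).2 hn'
        exact h2.dvd_of_dvd_mul_right h1
      have h1 : (b : ZMod p) ^ e = 1 := by
        rw [← orderOf_dvd_iff_pow_eq_one, ho]; exact hn'e
      have h2 : p ∣ b ^ e - 1 := by
        rw [← ZMod.natCast_eq_zero_iff, Nat.cast_sub hbe.le]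
        simp only [Nat.cast_pow, Nat.cast_one, h1, sub_self]
      have h3 := Nat.le_of_dvd (by omega) h2
      rw [hpq] at h3
      omega
    · have hqn' : q ∣ n' := by
        have h1 : q ∣ p ^ k * n' := by rw [← hkn]; exact Dvd.intro_left _ rfl
        have h2 : Nat.Coprime q (p ^ k) := by
          apply Nat.Coprime.pow_right
          rw [Nat.coprime_primes hqp hp]
          exact fun h => hpq h.symm
        exact h2.dvd_of_dvd_mul_left h1
      have h1 : q ≤ n' := Nat.le_of_dvd hn'pos hqn'
      have h2 : p ∣ e := by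
        rcases (Nat.Prime.dvd_mul hp).1 hd with h | h
        · exact h
        · exact absurd ((Nat.prime_dvd_prime_iff_eq hp hqp).1 h) hpq
      have h3 : p ≤ e := Nat.le_of_dvd hepos h2
      omega
  have hordp : orderOf (b : ZMod p) = e * q := order_of_dvd hp hpeq hpN
  have hpb := not_dvd_base hp heqpos hordp
  have hdv := order_dvd_sub_one hp hpb
  have hp1 : 0 < p - 1 := by have := hp.two_le; omega
  have hqlt : q ≤ p - 1 := by
    have h1 : e * q ≤ p - 1 := Nat.le_of_dvd hp1 (hordp ▸ hdv)
    nlinarith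
  have hp2 : p ≠ 2 := by
    have := hqp.two_le
    omega
  refine ⟨p, by omega, hp, ?_, hdv, ?_⟩
  · rw [hordp]; exact hme.trans (Dvd.intro _ rfl)
  · rw [val_fermat hp hp2 hb heqpos hordp, val_cyc hp hb heqpos hpeq hordp]
    exact hpr

end Pool.Agent.H76
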